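import Pool.Agent.H74.BRB.Stmts

/-!
# BRB, row FLB: flux bound
-/

set_option autoImplicit false

namespace Pool.BRB

theorem FLB (hT : TELStmt) (hC : CUTStmt) : FLBStmt := by
  intro M d r n hr hn
  obtain ⟨h1, h2, h3, h4, h5⟩ := hC M d r hr
  have h6 := hT M d (cut d r) n h1 h2 h3
  have hn0 : (0 : ℝ) < n := by exact_mod_cast hn
  have h7 : (n : ℝ) * Lap M (uu M d n) d ≤ n * (18 / har r) + 8 * (2 * r + 1) ^ 2 := by
    have h8 : (n : ℝ) * En M (cut d r) (cut d r) ≤ n * (18 / har r) :=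
      mul_le_mul_of_nonneg_left h5 hn0.le
    linarith
  have h9 : Lap M (uu M d n) d ≤ (n * (18 / har r) + 8 * (2 * r + 1) ^ 2) / n := by
    rw [le_div_iff₀ hn0]
    linarith
  have h10 : (n * (18 / har r) + 8 * (2 * (r : ℝ) + 1) ^ 2) / n =
      18 / har r + 8 * (2 * r + 1) ^ 2 / n := by
    field_simp
  rw [h10] at h9
  exact h9

end Pool.BRB
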